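import Pool.Agent.H114.MB.STEP
import Pool.Agent.H114.MB.SND
import Pool.Agent.H114.MB.GEO
import Pool.Agent.H114.MB.CPT
import Pool.Agent.H114.MB.PATH
import Pool.Agent.H114.MB.PUSH
import Pool.Agent.H114.MB.COC
import Pool.Agent.H114.MB.AMA
import Pool.Agent.H114.MB.HALF
import Pool.Agent.H114.MB.NAK
import Pool.Agent.H114.MB.CENT
import Pool.Agent.H114.MB.SNDW
import Pool.Agent.H114.MB.CMPW
import Pool.Agent.H114.MB.NC
import Pool.Agent.H114.MB.PCH
import Pool.Agent.H114.MB.PDR
import Pool.Agent.H114.MB.EXRE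
import Pool.Agent.H114.MB.FIN
import Pool.Agent.H114.MF.NULX
import Pool.Agent.H114.MF.RFM
import Pool.Agent.H114.MF.FBA
import Pool.Agent.H114.MF.ACT
import Pool.Agent.H114.MF.HALL
import Pool.Agent.H114.MF.FI
import Pool.Agent.H114.MF.SIMP
import Pool.Agent.H114.MF.MAXN
import Pool.Agent.H114.MF.PER
import Pool.Agent.H114.MF.FINQ
import Pool.Agent.H114.MF.MVI
import Pool.Agent.H114.MF.CENQ
import Pool.Agent.H114.MF.MAIN
import Pool.Agent.H114.MF.FQP
import Pool.Agent.H114.MF.SEM
import Pool.Agent.H114.MF.MRG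
import Pool.Agent.H114.MF.FPR
import Pool.Agent.H114.MF.PUSHA
import Pool.Agent.H114.MF.SOLV
import Pool.Agent.H114.MF.AMAS
import Pool.Agent.H114.MF.CENS
import Pool.Agent.H114.MF.CMPS
import Pool.Agent.H114.MF.BS
import Pool.Agent.H114.MF.PERB
import Pool.Agent.H114.MF.FINQB
import Pool.Agent.H114.MF.MVIB
import Pool.Agent.H114.MF.NOET
import Pool.Agent.H114.MF.MAINB
import Pool.Agent.H114.MF.VNA
import Pool.Agent.H114.MF.FINAL

/-!
# MP_faf39d_al: recognising metabelian groups among finitely presented solvable groups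
-/

set_option autoImplicit false

namespace Pool.Agent.Results.MP_faf39d_al.MetabelianDecision

open H114MB H114MF

/-- the finite presentation `⟨x_0, ..., x_{n-1} | R⟩` coded by the pair `p = (n, R)`: the set of
relators in the free group; `R` is a finite list of words, a word is a list of letters `(i, ε)`,
`(i, true)` is `x_i`, `(i, false)` is its inverse, letters with `i ≥ n` stand for `1` -/
def rels (p : ℕ × List (List (ℕ × Bool))) : Set (FreeGroup (Fin p.1)) :=
  {r : FreeGroup (Fin p.1) | ∃ w ∈ p.2,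
    r = (w.map (fun x : ℕ × Bool =>
      if h : x.1 < p.1 then
        (if x.2 then FreeGroup.of (⟨x.1, h⟩ : Fin p.1)
         else (FreeGroup.of (⟨x.1, h⟩ : Fin p.1))⁻¹)
      else 1)).prod}

/-- the group defined by the finite presentation coded by `p` -/
abbrev Grp (p : ℕ × List (List (ℕ × Bool))) : Type := PresentedGroup (rels p)

/-- There is one partial computable function `Φ` on finite presentations such that:
it answers `true` exactly on the presentations of metabelian groups; it answers `false` exactly on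
the presentations of groups with a non-metabelian finite quotient (so its answers are never wrong);
it halts on every presentation of a residually finite group; on a presentation of a solvable group
`G` it halts if and only if `G'' = 1` or `G''` has a proper subgroup of finite index which is normal
in `G`; in particular it halts if `G` is solvable and `[G'', G'] ≠ G''`, and if `G` is solvable and
nilpotent-by-abelian-by-finite. -/
theorem result :
    ∃ Φ : ℕ × List (List (ℕ × Bool)) →. Bool, Partrec Φ ∧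
      ∀ p : ℕ × List (List (ℕ × Bool)),
        (true ∈ Φ p ↔ derivedSeries (Grp p) 2 = ⊥) ∧
        (false ∈ Φ p ↔ ∃ K : Subgroup (Grp p), K.Normal ∧ K.index ≠ 0 ∧
          ¬ derivedSeries (Grp p) 2 ≤ K) ∧
        ((∀ x : Grp p, x ≠ 1 → ∃ K : Subgroup (Grp p), K.Normal ∧ K.index ≠ 0 ∧ x ∉ K) →
          (Φ p).Dom) ∧
        (Group.IsSolvable (Grp p) →
          ((Φ p).Dom ↔ derivedSeries (Grp p) 2 = ⊥ ∨
            ∃ L : Subgroup (Grp p), L.Normal ∧ L < derivedSeries (Grp p) 2 ∧
              L.relIndex (derivedSeries (Grp p) 2) ≠ 0)) ∧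
        (Group.IsSolvable (Grp p) →
          ⁅derivedSeries (Grp p) 2, commutator (Grp p)⁆ ≠ derivedSeries (Grp p) 2 →
          (Φ p).Dom) ∧
        (Group.IsSolvable (Grp p) →
          (∃ N : Subgroup (Grp p), N.index ≠ 0 ∧
            Group.IsNilpotent (⁅N, N⁆ : Subgroup (Grp p))) →
          (Φ p).Dom) := by
  have hSND : S_SND := t_SND t_STEP
  have hAMA : S_AMA := t_AMA t_COC t_PUSH t_PATH
  have hCENT : S_CENT := t_CENT hAMA t_HALF t_NAK
  have hSNDW : S_SNDW := t_SNDW hSND t_GEO
  have hCMPW : S_CMPW := t_CMPW hCENT t_CPT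
  have hRE : S_FIN := t_FIN hSNDW hCMPW t_NC t_PCH t_PDR t_EXRE
  have hRFM : S_RFM := t_RFM t_NUL
  have hHALL : S_HALL := t_HALL t_ACT hRFM t_FBA
  have hSIMP : S_SIMP := t_SIMP t_ACT hRFM
  have hMVI : S_MVI := t_MVI hHALL t_FI
  have hCENQ : S_CENQ := t_CENQ hCENT t_CPT t_GEO
  have hMAIN : S_MAIN := t_MAIN t_MAXN hSIMP hCENQ t_PER t_FINQ hMVI
  have hAMAS : S_AMAS := t_AMAS t_COC t_PATH t_PUSHA t_SOLV
  have hCENS : S_CENS := t_CENS hAMAS t_HALF t_NAK
  have hBS : S_BS := t_BS hCENS (t_CMPS t_CPT) hSNDW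
  have hMVIB : S_MVIB := t_MVIB hHALL t_FI
  have hMAINB : S_MAINB := t_MAINB hCENQ t_PERB t_FINQB (t_NOET t_ACT) hMVIB
  have hVNA : S_VNA := t_VNA t_ACT hRFM
  exact t_FINAL hRE hMAIN hMAINB hVNA t_MAXN t_FQP t_SEM t_MRG t_FPR hBS t_EXRE

end Pool.Agent.Results.MP_faf39d_al.MetabelianDecision
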